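import Pool.Agent.J4H48.RQ.Gen

/-!
# Intersections with an arbitrary convex body
-/

set_option autoImplicit false

open MeasureTheory ProbabilityTheory Filter Topology
open scoped RealInnerProductSpace ENNReal Matrix

namespace Pool.Agent.J4H48.RQ

open Pool.Agent.PZ871 (E gm)
open Pool.Agent.TH84.HC
open Pool.Agent.J4H48.RP

variable {d N : ℕ}

theorem corner_mono {m m' : ℕ} (hm : 1 ≤ m) (hmm : m ≤ m') {K : Set (E d)} {x : E d}
    (h : IsCorner m K x) : IsCorner m' K x := by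
  obtain ⟨g, hg, hv⟩ := h
  refine ⟨fun i => g ⟨i % m, Nat.mod_lt _ hm⟩, fun i => hg _, fun v hneg => hv v fun j => ?_⟩
  have := hneg ⟨j, lt_of_lt_of_le j.2 hmm⟩
  have e : (⟨(j : ℕ) % m, Nat.mod_lt _ hm⟩ : Fin m) = j := Fin.ext (Nat.mod_eq_of_lt j.2)
  simp only [e] at this
  exact this

theorem corner_inter {m₁ m₂ : ℕ} {A B : Set (E d)} (hA : Convex ℝ A) (hB : Convex ℝ B) {x : E d}
    (hxA : x ∈ A) (hxB : x ∈ B) (h1 : IsCorner m₁ A x) (h2 : IsCorner m₂ B x) :
    IsCorner (m₁ + m₂) (A ∩ B) x := by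
  obtain ⟨g, hg, hgv⟩ := h1
  obtain ⟨k, hk, hkv⟩ := h2
  refine ⟨Fin.append g k, ?_, ?_⟩
  · intro i
    refine Fin.addCases (fun i => ?_) (fun i => ?_) i
    · rw [Fin.append_left]
      exact ⟨(hg i).1, fun z hz => (hg i).2 z hz.1⟩
    · rw [Fin.append_right]
      exact ⟨(hk i).1, fun z hz => (hk i).2 z hz.2⟩
  · intro v hv
    obtain ⟨t, ht, ht'⟩ := hgv v fun i => by
      have := hv (Fin.castAdd m₂ i)
      rwa [Fin.append_left] at this
    obtain ⟨s, hs, hs'⟩ := hkv v fun i => by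
      have := hv (Fin.natAdd m₁ i)
      rwa [Fin.append_right] at this
    refine ⟨min t s, lt_min ht hs, ?_⟩
    rw [interior_inter]
    exact ⟨seg_int hA hxA (lt_min ht hs) (min_le_left _ _) ht',
      seg_int hB hxB (lt_min ht hs) (min_le_right _ _) hs'⟩

theorem corner_inter_int {m : ℕ} {A B : Set (E d)} (hA : Convex ℝ A) (hB : Convex ℝ B) {x : E d}
    (hxA : x ∈ A) (hxB : x ∈ interior B) (h1 : IsCorner m A x) :
    IsCorner m (A ∩ B) x := by
  obtain ⟨g, hg, hgv⟩ := h1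
  refine ⟨g, fun i => ⟨(hg i).1, fun z hz => (hg i).2 z hz.1⟩, ?_⟩
  intro v hv
  obtain ⟨t, ht, ht'⟩ := hgv v hv
  obtain ⟨s, hs, hs'⟩ := small_int v hxB
  refine ⟨min t s, lt_min ht hs, ?_⟩
  rw [interior_inter]
  exact ⟨seg_int hA hxA (lt_min ht hs) (min_le_left _ _) ht',
    seg_int hB (interior_subset hxB) (lt_min ht hs) (min_le_right _ _) hs'⟩

theorem corner_both {m₁ m₂ : ℕ} (hm₁ : 1 ≤ m₁) (hm₂ : 1 ≤ m₂) {A B : Set (E d)}
    (hA : Convex ℝ A) (hB : Convex ℝ B) {x : E d} (hx : x ∈ frontier (A ∩ B))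
    (hxA : x ∈ A) (hxB : x ∈ B) (h1 : x ∉ interior A → IsCorner m₁ A x)
    (h2 : x ∉ interior B → IsCorner m₂ B x) : IsCorner (m₁ + m₂) (A ∩ B) x := by
  by_cases hiA : x ∈ interior A
  · by_cases hiB : x ∈ interior B
    · exact absurd (by rw [interior_inter]; exact ⟨hiA, hiB⟩) hx.2
    · have h3 := corner_inter_int hB hA hxB hiA (h2 hiB)
      rw [Set.inter_comm] at h3
      exact corner_mono hm₂ (by omega) h3
  · by_cases hiB : x ∈ interior B
    · exact corner_mono hm₁ (by omega) (corner_inter_int hA hB hxA hiB (h1 hiA))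
    · exact corner_inter hA hB hxA hxB (h1 hiA) (h2 hiB)

/-- the number of hyperplanes through a point -/
theorem act_le (S : Finset ℝ) (hS : ∀ σ ∈ S, σ = 1 ∨ σ = -1) {b : E d → ℝ} {g : Fin N → E d}
    (hgp : ∀ (s : Finset (Fin N)) (hs : s.card = d),
      LinearIndependent ℝ (fun i => g (s.orderEmbOfFin hs i)))
    (hnull : ∀ c : Cand d N S, g ∉ NullC b c) (x : E d) (T : Finset (Fin N))
    (hT : ∀ i ∈ T, ∃ σ ∈ S, σ * ⟪g i, x⟫ = b (g i)) : T.card ≤ d := by
  by_contra hlt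
  push Not at hlt
  obtain ⟨s, hsT, hs⟩ := Finset.exists_subset_card_eq hlt.le
  have hne : ∃ j ∈ T, j ∉ s := by
    by_contra hc
    push Not at hc
    have : T ⊆ s := hc
    have := Finset.card_le_card this
    omega
  obtain ⟨j, hjT, hjs⟩ := hne
  have hsig : ∀ i : Fin d, ∃ σ : S, (σ : ℝ) * ⟪g (s.orderEmbOfFin hs i), x⟫ =
      b (g (s.orderEmbOfFin hs i)) := by
    intro i
    obtain ⟨σ, hσ, h⟩ := hT _ (hsT (Finset.orderEmbOfFin_mem s hs i))
    exact ⟨⟨σ, hσ⟩, h⟩
  choose σ hσ using hsig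
  have hv : ∀ i, ⟪g (s.orderEmbOfFin hs i), x⟫ = σ i * b (g (s.orderEmbOfFin hs i)) := by
    intro i
    rcases hS _ (σ i).2 with h | h
    · have := hσ i
      rw [h] at this ⊢
      simpa using this
    · have := hσ i
      rw [h] at this ⊢
      linarith
  have hxv : x = vv b ((⟨s, hs⟩, σ) : Cand d N S) g :=
    V_unique b (fun i => (σ i : ℝ)) _ (det_of_li _ (hgp s hs)) x hv
  obtain ⟨τ, hτ, h⟩ := hT j hjT
  apply hnull (⟨s, hs⟩, σ)
  refine ⟨j, hjs, τ, hτ, ?_⟩
  rw [← hxv]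
  exact h

/-- boundary points of the polyhedron are corners of order `d` -/
theorem poly_corner_d (S : Finset ℝ) (hS : ∀ σ ∈ S, σ = 1 ∨ σ = -1)
    {b : E d → ℝ} {g : Fin N → E d} (hb : ∀ i, 0 < b (g i)) (hg : ∀ i, g i ≠ 0)
    (hgp : ∀ (s : Finset (Fin N)) (hs : s.card = d),
      LinearIndependent ℝ (fun i => g (s.orderEmbOfFin hs i)))
    (hnull : ∀ c : Cand d N S, g ∉ NullC b c) {x : E d} (hx : x ∈ Poly S b g)
    (hxi : x ∉ interior (Poly S b g)) : IsCorner d (Poly S b g) x := by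
  classical
  set φ : Fin (Fintype.card (Fin N × S)) ≃ Fin N × S := (Fintype.equivFin (Fin N × S)).symm with hφ
  set a : Fin (Fintype.card (Fin N × S)) → E d := fun j => ((φ j).2 : ℝ) • g (φ j).1 with ha
  set b' : Fin (Fintype.card (Fin N × S)) → ℝ := fun j => b (g (φ j).1) with hb'
  have hP : Poly S b g = {y : E d | ∀ j, ⟪a j, y⟫ ≤ b' j} := by
    ext y
    constructor
    · intro hy j
      have := hy (φ j).1 (φ j).2 (φ j).2.2
      rw [ha, inner_smul_left]
      simpa using this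
    · intro hy i σ hσ
      have := hy (φ.symm (i, ⟨σ, hσ⟩))
      rw [ha, hb', inner_smul_left] at this
      simpa using this
  have hS0 : ∀ σ ∈ S, σ ≠ 0 := by
    intro σ hσ
    rcases hS σ hσ with h | h <;> rw [h] <;> norm_num
  set T : Finset (Fin N) := Finset.univ.filter fun i => ∃ σ ∈ S, σ * ⟪g i, x⟫ = b (g i) with hT
  have hTd : T.card ≤ d := act_le S hS hgp hnull x T fun i hi => (Finset.mem_filter.1 hi).2
  have hcount : {j | ⟪a j, x⟫ = b' j}.ncard ≤ d := by
    have h1 : ∀ j ∈ {j | ⟪a j, x⟫ = b' j}, (φ j).1 ∈ (T : Set (Fin N)) := by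
      intro j hj
      have hj' : ⟪a j, x⟫ = b' j := hj
      rw [ha, inner_smul_left] at hj'
      rw [Finset.mem_coe, hT, Finset.mem_filter]
      exact ⟨Finset.mem_univ _, (φ j).2, (φ j).2.2, by simpa using hj'⟩
    have h2 : Set.InjOn (fun j => (φ j).1) {j | ⟪a j, x⟫ = b' j} := by
      intro j hj k hk hjk
      have hj' : ⟪a j, x⟫ = b' j := hj
      have hk' : ⟪a k, x⟫ = b' k := hk
      simp only [ha, hb', inner_smul_left, conj_trivial] at hj' hk'
      have hjk' : (φ j).1 = (φ k).1 := hjk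
      rw [← hjk', ← hj'] at hk'
      have hne : ⟪g (φ j).1, x⟫ ≠ 0 := by
        intro h0
        rw [h0, mul_zero] at hj'
        exact (hb _).ne hj'
      have h3 : ((φ k).2 : ℝ) = (φ j).2 := mul_right_cancel₀ hne hk'
      apply φ.injective
      exact Prod.ext hjk' (Subtype.ext h3.symm)
    have h3 := Set.ncard_le_ncard_of_injOn (fun j => (φ j).1) h1 h2 (Finset.finite_toSet T)
    rw [Set.ncard_coe_finset] at h3
    exact h3.trans hTd
  have hfr : x ∈ frontier {y : E d | ∀ j, ⟪a j, y⟫ ≤ b' j} := by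
    rw [← hP]
    exact ⟨subset_closure hx, hxi⟩
  obtain ⟨e, he, hv⟩ := poly_corner (m := d) a b' (fun j => smul_ne_zero (hS0 _ (φ j).2.2) (hg _))
    hfr hcount
  rw [hP]
  refine ⟨fun i => innerSL ℝ (a (e i)), fun i => ⟨?_, fun z hz => ?_⟩, ?_⟩
  · intro h0
    have h0' : innerSL ℝ (a (e i)) = 0 := h0
    have h1 : innerSL ℝ (a (e i)) (a (e i)) = 0 := by rw [h0']; rfl
    rw [innerSL_apply_apply] at h1
    exact (smul_ne_zero (hS0 _ (φ (e i)).2.2) (hg _)) (inner_self_eq_zero.1 h1)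
  · rw [innerSL_apply_apply, innerSL_apply_apply, he i]
    exact hz (e i)
  · intro v hv'
    refine hv v fun i => ?_
    have := hv' i
    rwa [innerSL_apply_apply] at this

/-- no recession direction for two-sided inequalities -/
theorem not_rec (hdN : d ≤ N) {S : Finset ℝ} (h1 : (1:ℝ) ∈ S) (h2 : (-1:ℝ) ∈ S)
    {g : Fin N → E d}
    (hgp : ∀ (s : Finset (Fin N)) (hs : s.card = d),
      LinearIndependent ℝ (fun i => g (s.orderEmbOfFin hs i))) : ¬ Rec S g := by
  rintro ⟨u, hu, hrec⟩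
  have h0 : ∀ i, ⟪g i, u⟫ = 0 := by
    intro i
    have a1 := hrec i 1 h1
    have a2 := hrec i (-1) h2
    linarith
  obtain ⟨s, -, hs⟩ := Finset.exists_subset_card_eq (s := (Finset.univ : Finset (Fin N))) (n := d)
    (by rw [Finset.card_univ, Fintype.card_fin]; exact hdN)
  have hli := hgp s hs
  have hsp : Submodule.span ℝ (Set.range fun i => g (s.orderEmbOfFin hs i)) = ⊤ := by
    apply hli.span_eq_top_of_card_eq_finrank'
    rw [Fintype.card_fin, finrank_euclideanSpace_fin]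
  have h3 : ∀ x ∈ Submodule.span ℝ (Set.range fun i => g (s.orderEmbOfFin hs i)), ⟪x, u⟫ = 0 := by
    intro x hx
    induction hx using Submodule.span_induction with
    | mem x hx =>
      obtain ⟨i, rfl⟩ := hx
      exact h0 _
    | zero => simp
    | add x y _ _ hx hy => rw [inner_add_left, hx, hy, add_zero]
    | smul c x _ hx => rw [inner_smul_left, hx, mul_zero]
  have h4 := h3 u (by rw [hsp]; trivial)
  exact hu (inner_self_eq_zero.1 h4)

/-- on the good event the polyhedron is contained in a ball -/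
theorem poly_ball (hd : 1 ≤ d) {S : Finset ℝ} (hS : ∀ σ ∈ S, σ = 1 ∨ σ = -1)
    {b : E d → ℝ} {ρ : ℝ} {g : Fin N → E d} (hb : ∀ i, 0 < b (g i)) (hrec : ¬ Rec S g)
    (hbad : ∀ c : Cand d N S, g ∉ BadC b ρ c) :
    IsBody (Poly S b g) ∧ Poly S b g ⊆ Metric.closedBall 0 ρ := by
  have hbody := poly_body hd S b g hb hrec
  refine ⟨hbody, ?_⟩
  have h1 : Set.extremePoints ℝ (Poly S b g) ⊆ Metric.closedBall 0 ρ := by
    intro x hx
    obtain ⟨s, hs, σ, hli, hv⟩ := ext_cand S hS b g hx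
    have hxv : x = vv b ((⟨s, hs⟩, σ) : Cand d N S) g :=
      V_unique b (fun i => (σ i : ℝ)) _ (det_of_li _ hli) x hv
    rw [mem_closedBall_zero_iff]
    by_contra hlt
    push Not at hlt
    apply hbad (⟨s, hs⟩, σ)
    refine ⟨by rw [← hxv]; exact hlt, fun j _ τ hτ => ?_⟩
    rw [← hxv]
    exact (extremePoints_subset hx) j τ hτ
  rw [← closure_convexHull_extremePoints hbody.2.1 hbody.1]
  exact closure_minimal (convexHull_min h1 (convex_closedBall 0 ρ)) Metric.isClosed_closedBall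

end Pool.Agent.J4H48.RQ
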