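import Pool.Agent.J4H48.RQ.Smooth
import Pool.Agent.J4H48.RP.Final

/-!
# Random polytopes given by their facets: smoothed, semi-random and random facets
-/

set_option autoImplicit false

open MeasureTheory ProbabilityTheory Filter Topology
open scoped RealInnerProductSpace ENNReal Matrix

namespace Pool.Agent.J4H48.RQ

open Pool.Agent.PZ871 (E gm)
open Pool.Agent.TH84.HC
open Pool.Agent.J4H48.RP

/-- **Random facets.** -/
theorem facets2 :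
    -- (1) facets touching the unit ball at perturbed points, and an arbitrary convex set
    (∀ ε : ℝ, 0 < ε → ∀ s : ℝ, 0 < s → ∀ C₀ : ℕ, ∃ C d₀ : ℕ, ∀ d : ℕ, d₀ ≤ d → ∀ N : ℕ, C * d ≤ N →
      ∀ a : Fin N → E d, (∀ i, ‖a i‖ ≤ 1) → ∀ σ : Fin N → ℝ, (∀ i, s ≤ σ i) →
      ∀ K₀ : Set (E d), Back (C₀ * d) K₀ →
      Law d N {g | ¬ Good ((1 + ε) ^ d) (K₀ ∩ Touch fun i => a i + (σ i / Real.sqrt d) • g i)} ≤
        ENNReal.ofReal (ε ^ d)) ∧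
    -- (2) random facets, explicit number of facets
    (∃ η : ℝ, η < 1 ∧ ∃ d₀ : ℕ, ∀ d : ℕ, d₀ ≤ d → ∀ b : E d → ℝ, Width b → ∀ N : ℕ,
      (10 * d ≤ N → Law d N {g | ¬ Good (1.99 ^ d) (Sym b g)} ≤ ENNReal.ofReal (η ^ d)) ∧
      (22 * d ≤ N → Law d N {g | ¬ Good (1.99 ^ d) (One b g)} ≤ ENNReal.ofReal (η ^ d))) ∧
    -- (3) random facets, few translates
    (∀ ε : ℝ, 0 < ε → ∃ C d₀ : ℕ, ∀ d : ℕ, d₀ ≤ d → ∀ b : E d → ℝ, Width b → ∀ N : ℕ, C * d ≤ N →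
      Law d N {g | ¬ Good ((1 + ε) ^ d) (Sym b g)} ≤ ENNReal.ofReal (ε ^ d) ∧
      Law d N {g | ¬ Good ((1 + ε) ^ d) (One b g)} ≤ ENNReal.ofReal (ε ^ d)) :=
  ⟨fun ε hε s hs C₀ => smooth ε hε s hs C₀, facets.1, facets.2⟩

end Pool.Agent.J4H48.RQ
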