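import Pool.Agent.J4H48.RP.AsyB

/-!
# Independent facets with different laws
-/

set_option autoImplicit false

open MeasureTheory ProbabilityTheory Filter Topology
open scoped RealInnerProductSpace ENNReal Matrix

namespace Pool.Agent.J4H48.RQ

open Pool.Agent.PZ871 (E gm)
open Pool.Agent.TH84.HC
open Pool.Agent.J4H48.RP

variable {d N : ℕ}

theorem fub (μ : Fin N → Measure (E d)) [∀ i, IsProbabilityMeasure (μ i)] (s : Finset (Fin N))
    (W : ({i : Fin N // i ∈ s} → E d) → E d) (hW : Measurable W)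
    (A : Set (E d × ({i : Fin N // i ∉ s} → E d))) (hA : MeasurableSet A) (κ : ℝ≥0∞)
    (hκ : ∀ v, (Measure.pi fun i : {i : Fin N // i ∉ s} => μ i) {y | (v, y) ∈ A} ≤ κ) :
    (Measure.pi μ) {g | (W (res1 s g), res2 s g) ∈ A} ≤ κ := by
  have hmp := measurePreserving_piEquivPiSubtypeProd μ (fun i => i ∈ s)
  set B : Set (({i : Fin N // i ∈ s} → E d) × ({i : Fin N // i ∉ s} → E d)) :=
    {z | (W z.1, z.2) ∈ A} with hB
  have hBm : MeasurableSet B := by
    apply hA.preimage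
    exact (hW.comp measurable_fst).prodMk measurable_snd
  have h1 : {g : Fin N → E d | (W (res1 s g), res2 s g) ∈ A} =
      (MeasurableEquiv.piEquivPiSubtypeProd (fun _ : Fin N => E d) (fun i => i ∈ s)) ⁻¹' B := rfl
  rw [h1, hmp.measure_preimage_equiv, Measure.prod_apply hBm]
  refine (lintegral_mono fun x => hκ (W x)).trans ?_
  rw [lintegral_const, measure_univ, mul_one]

theorem badC_le (μ : Fin N → Measure (E d)) [∀ i, IsProbabilityMeasure (μ i)] {S : Finset ℝ}
    {b : E d → ℝ} (hb : Measurable b) {ρ : ℝ} {q : ℝ≥0∞}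
    (hq : ∀ i, ∀ v, ρ < ‖v‖ → μ i {a | ∀ τ ∈ S, τ * ⟪a, v⟫ ≤ b a} ≤ q) (c : Cand d N S) :
    (Measure.pi μ) (BadC b ρ c) ≤ q ^ (N - d) := by
  set A : Set (E d × ({i : Fin N // i ∉ c.1.1} → E d)) :=
    {z | ρ < ‖z.1‖ ∧ ∀ j, ∀ τ ∈ S, τ * ⟪z.2 j, z.1⟫ ≤ b (z.2 j)} with hA
  have hAm : MeasurableSet A := by
    have : A = {z | ρ < ‖z.1‖} ∩ ⋂ j, ⋂ τ ∈ S, {z | τ * ⟪z.2 j, z.1⟫ ≤ b (z.2 j)} := by
      ext z
      simp [hA]
    rw [this]
    refine (measurableSet_lt measurable_const (by fun_prop)).inter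
      (MeasurableSet.iInter fun j => Finset.measurableSet_biInter _ fun τ _ =>
        measurableSet_le (by fun_prop) ?_)
    exact hb.comp ((measurable_pi_apply j).comp measurable_snd)
  have h1 : BadC b ρ c ⊆ {g | (WW b c (res1 c.1.1 g), res2 c.1.1 g) ∈ A} := by
    intro g hg
    exact ⟨hg.1, fun j τ hτ => hg.2 j j.2 τ hτ⟩
  refine (measure_mono h1).trans (fub μ c.1.1 (WW b c) (WW_meas hb c) A hAm _ fun v => ?_)
  by_cases hv : ρ < ‖v‖
  · have h2 : {y : {i : Fin N // i ∉ c.1.1} → E d | (v, y) ∈ A} =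
        Set.pi Set.univ (fun _ => {a | ∀ τ ∈ S, τ * ⟪a, v⟫ ≤ b a}) := by
      ext y
      simp [hA, hv]
    rw [h2, Measure.pi_pi]
    have h3 : Fintype.card {i : Fin N // i ∉ c.1.1} = N - d := by
      rw [Fintype.card_subtype_compl, Fintype.card_fin, Fintype.card_coe, c.1.2]
    rw [← h3, ← Finset.card_univ]
    exact Finset.prod_le_pow_card _ _ _ fun i _ => hq i v hv
  · have h2 : {y : {i : Fin N // i ∉ c.1.1} → E d | (v, y) ∈ A} = ∅ := by
      ext y
      simp [hA, hv]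
    rw [h2, measure_empty]
    exact bot_le

theorem nullC_zero (μ : Fin N → Measure (E d)) [∀ i, IsProbabilityMeasure (μ i)] {S : Finset ℝ}
    {b : E d → ℝ} (hb : Measurable b)
    (h0 : ∀ i, ∀ v, ∀ τ ∈ S, μ i {a | τ * ⟪a, v⟫ = b a} = 0) (c : Cand d N S) :
    (Measure.pi μ) (NullC b c) = 0 := by
  have h1 : NullC b c ⊆ ⋃ j : {i : Fin N // i ∉ c.1.1}, ⋃ τ ∈ S,
      {g | (WW b c (res1 c.1.1 g), res2 c.1.1 g) ∈
        {z : E d × ({i : Fin N // i ∉ c.1.1} → E d) | τ * ⟪z.2 j, z.1⟫ = b (z.2 j)}} := by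
    rintro g ⟨j, hj, τ, hτ, h⟩
    simp only [Set.mem_iUnion]
    exact ⟨⟨j, hj⟩, τ, hτ, h⟩
  have hcS : ∀ j : {i : Fin N // i ∉ c.1.1}, (⋃ τ ∈ S,
      {g | (WW b c (res1 c.1.1 g), res2 c.1.1 g) ∈
        {z : E d × ({i : Fin N // i ∉ c.1.1} → E d) | τ * ⟪z.2 j, z.1⟫ = b (z.2 j)}}) =
      ⋃ τ : S, {g | (WW b c (res1 c.1.1 g), res2 c.1.1 g) ∈
        {z : E d × ({i : Fin N // i ∉ c.1.1} → E d) | (τ : ℝ) * ⟪z.2 j, z.1⟫ = b (z.2 j)}} := by
    intro j
    ext g
    simp
  refine measure_mono_null h1 (measure_iUnion_null fun j => ?_)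
  rw [hcS j]
  refine measure_iUnion_null fun τ' => ?_
  obtain ⟨τ, hτ⟩ := τ'
  rw [← nonpos_iff_eq_zero]
  refine fub μ c.1.1 (WW b c) (WW_meas hb c) _ ?_ 0 fun v => ?_
  · refine measurableSet_eq_fun (by fun_prop) ?_
    exact hb.comp ((measurable_pi_apply j).comp measurable_snd)
  · have h2 : {y : {i : Fin N // i ∉ c.1.1} → E d | (v, y) ∈
        {z : E d × ({i : Fin N // i ∉ c.1.1} → E d) | τ * ⟪z.2 j, z.1⟫ = b (z.2 j)}} =
        (Function.eval j) ⁻¹' {a | τ * ⟪a, v⟫ = b a} := rfl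
    rw [h2, (measurePreserving_eval (fun i : {i : Fin N // i ∉ c.1.1} => μ i) j).measure_preimage
      (measurableSet_eq_fun (by fun_prop) hb).nullMeasurableSet, h0 j v τ hτ]

/-- the law vanishes on all hyperplanes -/
def NoPlane (μ : Measure (E d)) : Prop := ∀ v : E d, v ≠ 0 → ∀ c : ℝ, μ {a | ⟪a, v⟫ = c} = 0

theorem NoPlane.submodule {μ : Measure (E d)} (h : NoPlane μ) (W : Submodule ℝ (E d))
    (hW : W ≠ ⊤) : μ (W : Set (E d)) = 0 := by
  rw [Ne, ← Submodule.orthogonal_eq_bot_iff] at hW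
  obtain ⟨w, hw, hw0⟩ := Submodule.exists_mem_ne_zero_of_ne_bot hW
  refine measure_mono_null ?_ (h w hw0 0)
  intro x hx
  exact (Submodule.mem_orthogonal _ _).1 hw x hx

/-- linear independence almost surely -/
theorem li_ae (k : ℕ) (hk : k ≤ d) (μ : Fin k → Measure (E d)) [∀ i, IsProbabilityMeasure (μ i)]
    (hμ : ∀ i, NoPlane (μ i)) :
    (Measure.pi μ) {h | ¬ LinearIndependent ℝ h} = 0 := by
  induction k with
  | zero =>
    have : {h : Fin 0 → E d | ¬ LinearIndependent ℝ h} = ∅ := by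
      ext h
      simp
    rw [this, measure_empty]
  | succ k ih =>
    have hmp := measurePreserving_piFinSuccAbove μ 0
    set B : Set (E d × (Fin k → E d)) :=
      {z | ¬ LinearIndependent ℝ (Fin.cons z.1 z.2 : Fin (k+1) → E d)} with hB
    have hBm : MeasurableSet B := by
      have hc : Continuous (fun z : E d × (Fin k → E d) => (Fin.cons z.1 z.2 : Fin (k+1) → E d)) := by
        fun_prop
      have : IsClosed B := by
        rw [← isOpen_compl_iff]
        have h1 : Bᶜ = (fun z : E d × (Fin k → E d) => (Fin.cons z.1 z.2 : Fin (k+1) → E d)) ⁻¹'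
            {f | LinearIndependent ℝ f} := by
          ext z
          simp [hB]
        rw [h1]
        exact isOpen_setOfPred_linearIndependent.preimage hc
      exact this.measurableSet
    have h1 : {h : Fin (k+1) → E d | ¬ LinearIndependent ℝ h} =
        (MeasurableEquiv.piFinSuccAbove (fun _ : Fin (k+1) => E d) 0) ⁻¹' B := by
      ext h
      have : (Fin.cons (h 0) (fun j => h (Fin.succAbove 0 j)) : Fin (k+1) → E d) = h := by
        funext j
        refine Fin.cases ?_ (fun j => ?_) j <;> simp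
      show ¬ LinearIndependent ℝ h ↔
        ¬ LinearIndependent ℝ (Fin.cons (h 0) (fun j => h (Fin.succAbove 0 j)) : Fin (k+1) → E d)
      rw [this]
    rw [h1, hmp.measure_preimage_equiv, Measure.prod_apply_symm hBm]
    have h2 : ∀ᵐ y ∂(Measure.pi fun j : Fin k => μ (Fin.succAbove 0 j)), LinearIndependent ℝ y :=
      ae_iff.2 (ih (by omega) (fun j => μ (Fin.succAbove 0 j)) fun j => hμ _)
    have h3 : ∀ᵐ y ∂(Measure.pi fun j : Fin k => μ (Fin.succAbove 0 j)),
        μ 0 ((fun x => (x, y)) ⁻¹' B) = 0 := by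
      filter_upwards [h2] with y hy
      refine measure_mono_null ?_ ((hμ 0).submodule (Submodule.span ℝ (Set.range y)) ?_)
      · intro a ha
        have ha' : ¬ LinearIndependent ℝ (Fin.cons a y : Fin (k+1) → E d) := ha
        rw [linearIndependent_finCons] at ha'
        by_contra hc
        exact ha' ⟨hy, hc⟩
      · intro htop
        have h4 : Module.finrank ℝ (Submodule.span ℝ (Set.range y)) ≤ k := by
          have := finrank_range_le_card (R := ℝ) y
          simpa [Set.finrank] using this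
        rw [htop, finrank_top, finrank_euclideanSpace_fin] at h4
        omega
    rw [lintegral_congr_ae h3]
    simp

theorem map_comp {k : ℕ} (μ : Fin N → Measure (E d)) [∀ i, IsProbabilityMeasure (μ i)]
    (e : Fin k → Fin N) (he : Function.Injective e) :
    MeasurePreserving (fun (g : Fin N → E d) (i : Fin k) => g (e i))
      (Measure.pi μ) (Measure.pi fun i : Fin k => μ (e i)) := by
  refine ⟨measurable_pi_iff.2 fun i => measurable_pi_apply _, ?_⟩
  have h1 : iIndepFun (fun (i : Fin N) (g : Fin N → E d) => g i) (Measure.pi μ) :=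
    iIndepFun_pi (μ := μ) (X := fun _ x => x) fun i => aemeasurable_id
  have h2 := h1.precomp he
  have h3 := (iIndepFun_iff_map_fun_eq_pi_map fun i =>
    (measurable_pi_apply (e i)).aemeasurable).1 h2
  rw [h3]
  congr 1
  funext i
  exact (measurePreserving_eval μ (e i)).map_eq

/-- general position almost surely -/
theorem gp_ae (μ : Fin N → Measure (E d)) [∀ i, IsProbabilityMeasure (μ i)]
    (hμ : ∀ i, NoPlane (μ i)) : ∀ᵐ g ∂(Measure.pi μ),
    ∀ (s : Finset (Fin N)) (hs : s.card = d), LinearIndependent ℝ (fun i => g (s.orderEmbOfFin hs i)) := by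
  rw [ae_all_iff]
  intro s
  by_cases hs : s.card = d
  · have h1 := map_comp μ (fun i : Fin d => s.orderEmbOfFin hs i) (s.orderEmbOfFin hs).injective
    have h2 : ∀ᵐ h ∂(Measure.pi fun i : Fin d => μ (s.orderEmbOfFin hs i)), LinearIndependent ℝ h :=
      ae_iff.2 (li_ae d le_rfl _ fun i => hμ _)
    have h3 := h1.quasiMeasurePreserving.ae h2
    filter_upwards [h3] with g hg _
    exact hg
  · exact Filter.Eventually.of_forall fun g h => absurd h hs

/-- the good event: no far vertex, general position -/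
def Fine (S : Finset ℝ) (b : E d → ℝ) (ρ : ℝ) (g : Fin N → E d) : Prop :=
  (∀ i, ‖g i‖ ≤ b (g i)) ∧
    (∀ (s : Finset (Fin N)) (hs : s.card = d),
      LinearIndependent ℝ (fun i => g (s.orderEmbOfFin hs i))) ∧
    (∀ c : Cand d N S, g ∉ NullC b c) ∧ (∀ c : Cand d N S, g ∉ BadC b ρ c)

theorem core (μ : Fin N → Measure (E d)) [∀ i, IsProbabilityMeasure (μ i)] {S : Finset ℝ}
    {b : E d → ℝ} (hb : Measurable b) {ρ : ℝ} {q : ℝ≥0∞} (hμ : ∀ i, NoPlane (μ i))
    (hq : ∀ i, ∀ v, ρ < ‖v‖ → μ i {a | ∀ τ ∈ S, τ * ⟪a, v⟫ ≤ b a} ≤ q)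
    (h0 : ∀ i, ∀ v, ∀ τ ∈ S, μ i {a | τ * ⟪a, v⟫ = b a} = 0)
    (hnorm : ∀ i, μ i {a | b a < ‖a‖} = 0) :
    (Measure.pi μ) {g | ¬ Fine S b ρ g} ≤
      (N.choose d : ℝ≥0∞) * (S.card : ℝ≥0∞) ^ d * q ^ (N - d) := by
  classical
  have h1 : ∀ᵐ g ∂(Measure.pi μ), (∀ i, ‖g i‖ ≤ b (g i)) ∧
      (∀ (s : Finset (Fin N)) (hs : s.card = d),
        LinearIndependent ℝ (fun i => g (s.orderEmbOfFin hs i))) ∧
      (∀ c : Cand d N S, g ∉ NullC b c) := by
    refine Filter.Eventually.and ?_ ((gp_ae μ hμ).and ?_)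
    · rw [ae_all_iff]
      intro i
      rw [ae_iff]
      have h2 : {g : Fin N → E d | ¬ ‖g i‖ ≤ b (g i)} = (Function.eval i) ⁻¹' {a | b a < ‖a‖} := by
        ext g
        simp
      rw [h2, (measurePreserving_eval μ i).measure_preimage
        (measurableSet_lt hb (by fun_prop)).nullMeasurableSet, hnorm]
    · rw [ae_all_iff]
      intro c
      rw [ae_iff]
      have h2 : {g : Fin N → E d | ¬ g ∉ NullC b c} = NullC b c := by
        ext g
        simp
      rw [h2]
      exact nullC_zero μ hb h0 c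
  have h2 : (Measure.pi μ) {g | ¬ Fine S b ρ g} ≤
      (Measure.pi μ) (⋃ c : Cand d N S, BadC b ρ c) := by
    refine measure_mono_ae ?_
    filter_upwards [h1] with g hg hbad
    obtain ⟨a1, a2, a3⟩ := hg
    by_contra hcon
    apply hbad
    refine ⟨a1, a2, a3, fun c hc => hcon ?_⟩
    exact Set.mem_iUnion.2 ⟨c, hc⟩
  refine h2.trans ((measure_iUnion_fintype_le _ _).trans ?_)
  refine (Finset.sum_le_sum fun c _ => badC_le μ hb hq c).trans (le_of_eq ?_)
  rw [Finset.sum_const, Finset.card_univ, card_cand, nsmul_eq_mul]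
  push_cast
  ring

end Pool.Agent.J4H48.RQ
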