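import Pool.Agent.J4H48.RQ.Back

/-!
# Many independent slabs, and an arbitrary convex body
-/

set_option autoImplicit false

open MeasureTheory ProbabilityTheory Filter Topology
open scoped RealInnerProductSpace ENNReal Matrix

namespace Pool.Agent.J4H48.RQ

open Pool.Agent.PZ871 (E gm)
open Pool.Agent.TH84.HC
open Pool.Agent.J4H48.RP

/-- the intersection of the slabs `|⟪h i, x⟫| ≤ 1` -/
def Slabs {d N : ℕ} (h : Fin N → E d) : Set (E d) := {x | ∀ i, |⟪h i, x⟫| ≤ 1}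

/-- `K₀` is closed, convex, contains the unit ball, and its boundary points are corners of order
`m` -/
def Back {d : ℕ} (m : ℕ) (K₀ : Set (E d)) : Prop :=
  IsClosed K₀ ∧ Convex ℝ K₀ ∧ Metric.closedBall 0 1 ⊆ K₀ ∧ ∀ x ∈ frontier K₀, IsCorner m K₀ x

/-- the law of a normal of a slab: no mass on hyperplanes, the slab contains the unit ball, and
points at distance more than `ρ` are in the slab with probability at most `q` -/
def Facet {d : ℕ} (q ρ : ℝ) (μ : Measure (E d)) : Prop :=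
  IsProbabilityMeasure μ ∧ NoPlane μ ∧ μ {a | 1 < ‖a‖} = 0 ∧
    ∀ v : E d, ρ < ‖v‖ → μ {a | |⟪a, v⟫| ≤ 1} ≤ ENNReal.ofReal q

theorem slabs_eq {d N : ℕ} (h : Fin N → E d) : Slabs h = Poly {1, -1} (fun _ => 1) h := by
  ext x
  simp only [Slabs, RP.Poly, Set.mem_ofPred_eq, Finset.mem_insert, Finset.mem_singleton,
    forall_eq_or_imp, forall_eq, one_mul, neg_mul]
  refine forall_congr' fun i => ?_
  rw [abs_le]
  constructor
  · rintro ⟨h1, h2⟩
    exact ⟨h2, by linarith⟩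
  · rintro ⟨h1, h2⟩
    exact ⟨by linarith, h1⟩

theorem two_sided {d : ℕ} (v : E d) :
    {a : E d | ∀ τ ∈ ({1, -1} : Finset ℝ), τ * ⟪a, v⟫ ≤ 1} = {a | |⟪a, v⟫| ≤ 1} := by
  ext a
  simp only [Set.mem_ofPred_eq, Finset.mem_insert, Finset.mem_singleton,
    forall_eq_or_imp, forall_eq, one_mul, neg_mul]
  rw [abs_le]
  constructor
  · rintro ⟨h1, h2⟩
    exact ⟨by linarith, h1⟩
  · rintro ⟨h1, h2⟩
    exact ⟨h2, by linarith⟩

theorem hSpm : ∀ σ ∈ ({1, -1} : Finset ℝ), σ = 1 ∨ σ = -1 := by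
  intro σ hσ
  simpa using hσ

/-- the deterministic part -/
theorem good_back (ε : ℝ) (hε : 0 < ε) (C₀ : ℕ) : ∃ c : ℝ, 0 < c ∧ c ≤ 1 ∧ ∃ d₀ : ℕ,
    ∀ d : ℕ, d₀ ≤ d → 2 ≤ d ∧ ∀ N : ℕ, d ≤ N → ∀ K₀ : Set (E d), Back (C₀ * d) K₀ →
    ∀ h : Fin N → E d, Fine {1, -1} (fun _ => 1) (Real.sqrt (c * d)) h →
    Good ((1 + ε) ^ d) (K₀ ∩ Slabs h) := by
  obtain ⟨c, hc, d₀, hmain⟩ := asympU ε hε
  set ℓ : ℝ := Real.log (3 + (C₀ + 1)) with hℓ
  have hℓ0 : 0 < ℓ := by
    apply Real.log_pos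
    have : (0:ℝ) ≤ C₀ := Nat.cast_nonneg _
    linarith
  refine ⟨min 1 (c / ℓ), lt_min one_pos (by positivity), min_le_left _ _,
    max (max d₀ 2) ⌈1 / min 1 (c / ℓ)⌉₊, fun d hd => ?_⟩
  have hd1 : d₀ ≤ d := (le_max_left _ _).trans ((le_max_left _ _).trans hd)
  have hd2 : 2 ≤ d := (le_max_right _ _).trans ((le_max_left _ _).trans hd)
  have hd3 : 1 / min 1 (c / ℓ) ≤ d :=
    (Nat.le_ceil _).trans (by exact_mod_cast (le_max_right _ _).trans hd)
  set c' := min 1 (c / ℓ) with hc'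
  have hc'0 : 0 < c' := lt_min one_pos (by positivity)
  have hd0 : (0:ℝ) < d := by exact_mod_cast (by omega : 0 < d)
  have h1 : 1 ≤ c' * d := by
    rwa [div_le_iff₀ hc'0, mul_comm] at hd3
  have hR : 1 ≤ Real.sqrt (c' * d) := Real.one_le_sqrt.2 h1
  refine ⟨hd2, fun N hdN K₀ hK₀ h hfine => ?_⟩
  obtain ⟨hcl, hcv, hball, hcor⟩ := hK₀
  obtain ⟨f1, f2, f3, f4⟩ := hfine
  have hg : ∀ i, h i ≠ 0 := by
    intro i
    obtain ⟨s, his, hs⟩ : ∃ s : Finset (Fin N), i ∈ s ∧ s.card = d := by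
      obtain ⟨s, hs1, -, hs2⟩ := Finset.exists_subsuperset_card_eq
        (s := {i}) (t := (Finset.univ : Finset (Fin N))) (n := d) (Finset.subset_univ _)
        (by rw [Finset.card_singleton]; omega)
        (by rw [Finset.card_univ, Fintype.card_fin]; exact hdN)
      exact ⟨s, hs1 (Finset.mem_singleton_self i), hs2⟩
    have hr : i ∈ Set.range (s.orderEmbOfFin hs) := by
      rw [Finset.range_orderEmbOfFin]
      exact his
    obtain ⟨k, hk⟩ := hr
    have := (f2 s hs).ne_zero k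
    rwa [hk] at this
  have hb : ∀ i, 0 < (fun _ : E d => (1:ℝ)) (h i) := fun _ => one_pos
  have hrec : ¬ Rec ({1, -1} : Finset ℝ) h := not_rec hdN (by simp) (by simp) f2
  obtain ⟨hbody, hsub⟩ := poly_ball (by omega) hSpm hb hrec f4
  rw [slabs_eq]
  set P : Set (E d) := Poly {1, -1} (fun _ => 1) h with hP
  have hPball : Metric.closedBall 0 1 ⊆ P := by
    intro z hz i σ hσ
    rw [mem_closedBall_zero_iff] at hz
    have h8 : |⟪h i, z⟫| ≤ ‖h i‖ * ‖z‖ := abs_real_inner_le_norm _ _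
    have h9 : σ * ⟪h i, z⟫ ≤ |⟪h i, z⟫| := by
      rcases hSpm σ hσ with e | e
      · rw [e, one_mul]
        exact le_abs_self _
      · rw [e, neg_one_mul]
        exact neg_le_abs _
    have h10 : ‖h i‖ * ‖z‖ ≤ 1 * 1 := mul_le_mul (f1 i) hz (norm_nonneg _) zero_le_one
    show σ * ⟪h i, z⟫ ≤ 1
    linarith
  have hKball : Metric.closedBall 0 1 ⊆ K₀ ∩ P := Set.subset_inter hball hPball
  have hKbody : IsBody (K₀ ∩ P) := by
    refine ⟨hcv.inter hbody.1, hbody.2.1.inter_left hcl, ⟨0, ?_⟩⟩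
    rw [mem_interior_iff_mem_nhds]
    exact Filter.mem_of_superset (Metric.closedBall_mem_nhds 0 one_pos) hKball
  have hC₀d : 1 ≤ C₀ * d ∨ C₀ = 0 := by
    rcases Nat.eq_zero_or_pos C₀ with e | e
    · exact Or.inr e
    · exact Or.inl (Nat.mul_pos e (by omega))
  refine ⟨hKbody, ?_⟩
  have h4 := hmain d hd1 ((C₀ + 1) * d) (Real.sqrt (c' * d)) hR ?_ (K₀ ∩ P)
    (ContinuousLinearEquiv.refl ℝ (E d)) hKbody ∅ ?_
  · simpa using h4
  · rw [Real.sq_sqrt (by positivity)]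
    push_cast
    rw [mul_div_assoc, div_self hd0.ne', mul_one]
    have h5 : c' ≤ c / ℓ := min_le_right _ _
    have h6 : c' * ℓ ≤ c := by rwa [le_div_iff₀ hℓ0] at h5
    have h7 : Real.log (2 + ((C₀:ℝ) + 1)) ≤ ℓ := by
      apply Real.log_le_log _ (by linarith)
      positivity
    have h8 : c' * d * Real.log (2 + ((C₀:ℝ) + 1)) ≤ c' * d * ℓ :=
      mul_le_mul_of_nonneg_left h7 (by positivity)
    nlinarith
  · intro x hx _
    have hxK : x ∈ K₀ ∩ P := extremePoints_subset hx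
    have hfr : x ∈ frontier (K₀ ∩ P) := extreme_frontier (by omega) hx
    have hcP : x ∉ interior P → IsCorner d P x := fun hxi =>
      poly_corner_d {1, -1} hSpm hb hg f2 f3 hxK.2 hxi
    have hcK : x ∉ interior K₀ → IsCorner (C₀ * d) K₀ x := fun hxi =>
      hcor x ⟨subset_closure hxK.1, hxi⟩
    have hcorner : IsCorner ((C₀ + 1) * d) (K₀ ∩ P) x := by
      have e : (C₀ + 1) * d = C₀ * d + d := by ring
      rw [e]
      rcases hC₀d with hp | hz
      · exact corner_both hp (by omega) hcv hbody.1 hfr hxK.1 hxK.2 hcK hcP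
      · -- no boundary points of `K₀`
        by_cases hi : x ∈ interior K₀
        · have hPi : x ∉ interior P := by
            intro hxP
            exact hfr.2 (by rw [interior_inter]; exact ⟨hi, hxP⟩)
          have h5 := corner_inter_int hbody.1 hcv hxK.2 hi (hcP hPi)
          rw [Set.inter_comm] at h5
          exact corner_mono (by omega) (by omega) h5
        · exfalso
          obtain ⟨k, hk, hkv⟩ := hcK hi
          subst hz
          obtain ⟨t, ht, ht'⟩ := hkv 0 (fun i => absurd i.2 (by omega))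
          rw [smul_zero, add_zero] at ht'
          exact hi ht'
    refine seen_of_corner (p := 0) ?_ ?_ hcorner
    · intro z hz
      apply hKball
      rw [mem_closedBall_zero_iff]
      simpa using hz
    · have h5 := hsub hxK.2
      rw [mem_closedBall_zero_iff] at h5
      simpa using h5

/-- **Many independent slabs and an arbitrary body.** -/
theorem gen (ε : ℝ) (hε : 0 < ε) (C₀ : ℕ) : ∃ c : ℝ, 0 < c ∧ c ≤ 1 ∧
    ∀ q : ℝ, 0 < q → q < 1 → ∃ C d₀ : ℕ, ∀ d : ℕ, d₀ ≤ d → ∀ N : ℕ, C * d ≤ N →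
    ∀ μ : Fin N → Measure (E d), (∀ i, Facet q (Real.sqrt (c * d)) (μ i)) →
    ∀ K₀ : Set (E d), Back (C₀ * d) K₀ →
    (Measure.pi μ) {h | ¬ Good ((1 + ε) ^ d) (K₀ ∩ Slabs h)} ≤ ENNReal.ofReal (ε ^ d) := by
  obtain ⟨c, hc, hc1, d₁, hgood⟩ := good_back ε hε C₀
  refine ⟨c, hc, hc1, fun q hq0 hq1 => ?_⟩
  obtain ⟨k, hk, hk1, hk2, hk3⟩ := choose_k q ε hq0 hq1 hε
  refine ⟨k + 1, d₁, fun d hd N hN μ hμ K₀ hK₀ => ?_⟩
  obtain ⟨hd2, hdet⟩ := hgood d hd
  have hdN : d ≤ N := by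
    have : 1 * d ≤ (k + 1) * d := Nat.mul_le_mul_right d (by omega)
    omega
  have : ∀ i, IsProbabilityMeasure (μ i) := fun i => (hμ i).1
  have hcore := core μ (S := {1, -1}) (b := fun _ => 1) measurable_const
    (ρ := Real.sqrt (c * d)) (q := ENNReal.ofReal q) (fun i => (hμ i).2.1) ?_ ?_
    (fun i => (hμ i).2.2.1)
  · refine (measure_mono ?_).trans (hcore.trans ?_)
    · intro h hh hf
      exact hh (hdet N hdN K₀ hK₀ h hf)
    · have h1 := third_le N d {1, -1} (ENNReal.ofReal q) q hq0.le le_rfl 1 le_rfl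
      simp only [Nat.cast_one, div_one] at h1
      refine h1.trans (ENNReal.ofReal_le_ofReal ?_)
      exact third_small hSpm hq0 hk hk1 hk2 hN
  · intro i v hv
    rw [two_sided]
    exact (hμ i).2.2.2 v hv
  · intro i v τ hτ
    have hτ0 : τ ≠ 0 := by rcases hSpm τ hτ with e | e <;> rw [e] <;> norm_num
    by_cases hv : v = 0
    · have : {a : E d | τ * ⟪a, v⟫ = 1} = ∅ := by
        ext a
        simp [hv]
      rw [this, measure_empty]
    · refine measure_mono_null ?_ ((hμ i).2.1 v hv (1 / τ))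
      intro a ha
      have ha' : τ * ⟪a, v⟫ = 1 := ha
      show ⟪a, v⟫ = 1 / τ
      rw [eq_div_iff hτ0, mul_comm]
      exact ha'

end Pool.Agent.J4H48.RQ
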