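import Pool.Agent.J4H48.RQ.Many

/-!
# Facets touching the unit ball at randomly perturbed points
-/

set_option autoImplicit false

open MeasureTheory ProbabilityTheory Filter Topology
open scoped RealInnerProductSpace ENNReal Matrix

namespace Pool.Agent.J4H48.RQ

open Pool.Agent.PZ871 (E gm)
open Pool.Agent.TH84.HC
open Pool.Agent.J4H48.RP

/-- the intersection of the slabs touching the unit ball at `± y i / ‖y i‖` -/
def Touch {d N : ℕ} (y : Fin N → E d) : Set (E d) := {x | ∀ i, |⟪y i, x⟫| ≤ ‖y i‖}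

theorem vol_norm {d : ℕ} (hd : 2 ≤ d) (v : E d) (τ : ℝ) :
    (volume : Measure (E d)) {a | τ * ⟪a, v⟫ = ‖a‖} = 0 := by
  set C : Set (E d) := {a | ‖a‖ ≤ τ * ⟪a, v⟫} with hC
  have hCc : Convex ℝ C := by
    intro x hx y hy p q hp hq hpq
    have hx' : ‖x‖ ≤ τ * ⟪x, v⟫ := hx
    have hy' : ‖y‖ ≤ τ * ⟪y, v⟫ := hy
    show ‖p • x + q • y‖ ≤ τ * ⟪p • x + q • y, v⟫
    rw [inner_add_left, inner_smul_left, inner_smul_left]
    refine (norm_add_le _ _).trans ?_
    rw [norm_smul, norm_smul, Real.norm_of_nonneg hp, Real.norm_of_nonneg hq]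
    simp only [conj_trivial]
    nlinarith [mul_le_mul_of_nonneg_left hx' hp, mul_le_mul_of_nonneg_left hy' hq]
  refine measure_mono_null ?_ (hCc.addHaar_frontier volume)
  intro a ha
  have ha' : τ * ⟪a, v⟫ = ‖a‖ := ha
  refine ⟨subset_closure ha'.ge, fun hint => ?_⟩
  obtain ⟨w, hw0, hwv⟩ := exists_orth hd v
  have h1 : ∀ᶠ t in 𝓝 (0:ℝ), a + t • w ∈ C := by
    have hc : Continuous (fun t : ℝ => a + t • w) := by fun_prop
    have h2 : ∀ᶠ z in 𝓝 (a + (0:ℝ) • w), z ∈ C := by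
      rw [zero_smul, add_zero]
      exact mem_interior_iff_mem_nhds.1 hint
    exact hc.continuousAt.eventually h2
  have h2 : ∀ᶠ t in 𝓝 (0:ℝ), a + (-t) • w ∈ C := by
    have h3 : Filter.Tendsto (fun t : ℝ => -t) (𝓝 0) (𝓝 0) := by
      have := (continuous_neg (G := ℝ)).tendsto 0
      simpa using this
    exact h3.eventually h1
  obtain ⟨t, ⟨ht1, ht2⟩, ht⟩ := (((h1.and h2).filter_mono nhdsWithin_le_nhds).and
    (self_mem_nhdsWithin (a := (0:ℝ)) (s := Set.Ioi 0))).exists
  have ht0 : (0:ℝ) < t := ht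
  have k1 : ‖a + t • w‖ ≤ ‖a‖ := by
    have : ‖a + t • w‖ ≤ τ * ⟪a + t • w, v⟫ := ht1
    rwa [inner_add_left, inner_smul_left, hwv, mul_zero, add_zero, ha'] at this
  have k2 : ‖a + (-t) • w‖ ≤ ‖a‖ := by
    have : ‖a + (-t) • w‖ ≤ τ * ⟪a + (-t) • w, v⟫ := ht2
    rwa [inner_add_left, inner_smul_left, hwv, mul_zero, add_zero, ha'] at this
  have k3 := parallelogram_law_with_norm ℝ a (t • w)
  have k4 : a + (-t) • w = a - t • w := by rw [neg_smul, sub_eq_add_neg]
  rw [k4] at k2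
  have k5 : 0 < ‖t • w‖ := norm_pos_iff.2 (smul_ne_zero ht0.ne' hw0)
  nlinarith [norm_nonneg (a + t • w), norm_nonneg (a - t • w), norm_nonneg a]

/-- a null set for the perturbed point -/
theorem shift_null {d : ℕ} (a : E d) {σ : ℝ} (hσ : σ ≠ 0) {Z : Set (E d)}
    (hZ : (volume : Measure (E d)) Z = 0) : gm d {g | a + σ • g ∈ Z} = 0 := by
  apply gm_ac
  have h1 : (volume : Measure (E d)) ((fun x => a + x) ⁻¹' Z) = 0 := by
    rw [measure_preimage_add]
    exact hZ
  have h2 := Measure.addHaar_preimage_smul (volume : Measure (E d)) hσ ((fun x => a + x) ⁻¹' Z)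
  rw [h1, mul_zero] at h2
  exact h2

/-- the unit normal -/
noncomputable def unit {d : ℕ} (a : E d) (σ : ℝ) (g : E d) : E d := ‖a + σ • g‖⁻¹ • (a + σ • g)

theorem unit_meas {d : ℕ} (a : E d) (σ : ℝ) : Measurable (unit a σ) := by
  unfold unit
  have h1 : Measurable fun g : E d => a + σ • g := by fun_prop
  exact h1.norm.inv.smul h1

theorem slab_unit {d : ℕ} (y x : E d) : |⟪‖y‖⁻¹ • y, x⟫| ≤ 1 ↔ |⟪y, x⟫| ≤ ‖y‖ := by
  by_cases hy : y = 0
  · simp [hy]
  · have hn : 0 < ‖y‖ := norm_pos_iff.2 hy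
    rw [inner_smul_left, conj_trivial, abs_mul, abs_of_pos (inv_pos.2 hn), inv_mul_le_iff₀ hn,
      mul_one]

theorem slabs_unit {d N : ℕ} (a : Fin N → E d) (σ : Fin N → ℝ) (g : Fin N → E d) :
    Slabs (fun i => unit (a i) (σ i) (g i)) = Touch fun i => a i + σ i • g i := by
  ext x
  exact forall_congr' fun i => slab_unit _ _

/-- tail of a shifted Gaussian variable -/
theorem shift_gq {m w T X : ℝ} (hw : 0 < w) (hX : T / w ≤ X) :
    g1 {z | |m + w * z| ≤ T} ≤ gq {1} X := by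
  have hgq : gq {1} X = g1 (Set.Iic X) := by
    unfold gq
    congr 1
    ext z
    simp
  rcases le_total 0 m with hm | hm
  · rw [hgq]
    apply measure_mono
    intro z hz
    have h1 : |m + w * z| ≤ T := hz
    have h2 := (abs_le.1 h1).2
    have h3 : z ≤ T / w := by
      rw [le_div_iff₀ hw]
      nlinarith
    exact h3.trans hX
  · rw [hgq, ← mp_neg1.measure_preimage measurableSet_Iic.nullMeasurableSet]
    apply measure_mono
    intro z hz
    have h1 : |m + w * z| ≤ T := hz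
    have h2 := (abs_le.1 h1).1
    have h3 : -z ≤ T / w := by
      rw [le_div_iff₀ hw]
      nlinarith
    exact h3.trans hX

theorem facet_unit {d : ℕ} (hd : 2 ≤ d) (a : E d) (ha : ‖a‖ ≤ 1) {s c : ℝ} (hs : 0 < s)
    (hc : 0 < c) {s₁ : ℝ} (hs₁ : s ≤ s₁) {q : ℝ}
    (hq : gq {1} ((1 / s + 2) / Real.sqrt c) + ENNReal.ofReal (th 2 ^ d) ≤ ENNReal.ofReal q) :
    Facet q (Real.sqrt (c * d)) ((gm d).map (unit a (s₁ / Real.sqrt d))) := by
  have hd0 : (0:ℝ) < d := by exact_mod_cast (by omega : 0 < d)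
  have hsd : 0 < Real.sqrt d := Real.sqrt_pos.2 hd0
  have hsc : 0 < Real.sqrt c := Real.sqrt_pos.2 hc
  have hs₁0 : 0 < s₁ := lt_of_lt_of_le hs hs₁
  set σ : ℝ := s₁ / Real.sqrt d with hσ
  have hσ0 : 0 < σ := by positivity
  have hm := unit_meas a σ
  refine ⟨Measure.isProbabilityMeasure_map hm.aemeasurable, ?_, ?_, ?_⟩
  · intro v hv e
    rw [Measure.map_apply hm (measurableSet_eq_fun (by fun_prop) measurable_const)]
    by_cases he : e = 0
    · have hZ : (volume : Measure (E d)) {y | ⟪y, v⟫ = 0} = 0 := by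
        have h1 : {y : E d | ⟪y, v⟫ = 0} = ((ℝ ∙ v)ᗮ : Submodule ℝ (E d)) := by
          ext y
          rw [SetLike.mem_coe, Submodule.mem_orthogonal_singleton_iff_inner_left]
          rfl
        rw [h1]
        apply Measure.addHaar_submodule
        intro h2
        have h3 : v ∈ (ℝ ∙ v)ᗮ := by rw [h2]; trivial
        rw [Submodule.mem_orthogonal_singleton_iff_inner_left] at h3
        exact hv (inner_self_eq_zero.1 h3)
      refine measure_mono_null ?_ (shift_null a hσ0.ne' hZ)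
      intro g hg
      have hg' : ⟪‖a + σ • g‖⁻¹ • (a + σ • g), v⟫ = e := hg
      show ⟪a + σ • g, v⟫ = 0
      rw [inner_smul_left, he, conj_trivial] at hg'
      rcases mul_eq_zero.1 hg' with h | h
      · have : a + σ • g = 0 := norm_eq_zero.1 (inv_eq_zero.1 h)
        rw [this, inner_zero_left]
      · exact h
    · refine measure_mono_null ?_ (shift_null a hσ0.ne' (vol_norm hd v (1 / e)))
      intro g hg
      have hg' : ⟪‖a + σ • g‖⁻¹ • (a + σ • g), v⟫ = e := hg
      show 1 / e * ⟪a + σ • g, v⟫ = ‖a + σ • g‖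
      rw [inner_smul_left, conj_trivial] at hg'
      have hn : ‖a + σ • g‖ ≠ 0 := by
        intro h0
        rw [h0, inv_zero, zero_mul] at hg'
        exact he hg'.symm
      rw [inv_mul_eq_iff_eq_mul₀ hn] at hg'
      rw [hg']
      field_simp
  · rw [Measure.map_apply hm (measurableSet_lt measurable_const (by fun_prop))]
    have : unit a σ ⁻¹' {y : E d | 1 < ‖y‖} = ∅ := by
      ext g
      simp only [Set.mem_preimage, Set.mem_ofPred_eq, Set.mem_empty_iff_false, iff_false, not_lt]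
      unfold unit
      rw [norm_smul, norm_inv, norm_norm]
      exact inv_mul_le_one
    rw [this, measure_empty]
  · intro v hv
    rw [Measure.map_apply hm (measurableSet_le (by fun_prop) measurable_const)]
    have hv0 : 0 < ‖v‖ := lt_of_le_of_lt (Real.sqrt_nonneg _) hv
    set θ : E d := ‖v‖⁻¹ • v with hθ
    have hθ1 : ‖θ‖ = 1 := by rw [hθ, norm_smul, norm_inv, norm_norm, inv_mul_cancel₀ hv0.ne']
    set T : ℝ := 1 + 2 * s₁ with hT
    have hw : 0 < σ * ‖v‖ := by positivity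
    have hX : T / (σ * ‖v‖) ≤ (1 / s + 2) / Real.sqrt c := by
      have h1 : Real.sqrt c * Real.sqrt d ≤ ‖v‖ := by
        rw [← Real.sqrt_mul hc.le]
        exact hv.le
      have h2 : s₁ * Real.sqrt c ≤ σ * ‖v‖ := by
        calc s₁ * Real.sqrt c = σ * (Real.sqrt c * Real.sqrt d) := by
              rw [hσ]
              field_simp
          _ ≤ σ * ‖v‖ := mul_le_mul_of_nonneg_left h1 hσ0.le
      calc T / (σ * ‖v‖) ≤ T / (s₁ * Real.sqrt c) :=
            div_le_div_of_nonneg_left (by positivity) (by positivity) h2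
        _ = (1 / s₁ + 2) / Real.sqrt c := by
            rw [hT]
            field_simp
        _ ≤ (1 / s + 2) / Real.sqrt c := by
            gcongr
    refine le_trans ?_ hq
    have hsub : unit a σ ⁻¹' {y : E d | |⟪y, v⟫| ≤ 1} ⊆
        (fun g : E d => ⟪g, θ⟫) ⁻¹' {z | |⟪a, v⟫ + σ * ‖v‖ * z| ≤ T} ∪
          {g | 2 * Real.sqrt d ≤ ‖g‖} := by
      intro g hg
      have hg' : |⟪‖a + σ • g‖⁻¹ • (a + σ • g), v⟫| ≤ 1 := hg
      rw [slab_unit] at hg'
      by_cases hgn : 2 * Real.sqrt d ≤ ‖g‖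
      · exact Or.inr hgn
      · left
        push Not at hgn
        show |⟪a, v⟫ + σ * ‖v‖ * ⟪g, θ⟫| ≤ T
        have e1 : ⟪a + σ • g, v⟫ = ⟪a, v⟫ + σ * ‖v‖ * ⟪g, θ⟫ := by
          rw [inner_add_left, inner_smul_left, conj_trivial, hθ, inner_smul_right]
          field_simp
        rw [← e1]
        refine hg'.trans ?_
        calc ‖a + σ • g‖ ≤ ‖a‖ + ‖σ • g‖ := norm_add_le _ _
          _ = ‖a‖ + σ * ‖g‖ := by rw [norm_smul, Real.norm_of_nonneg hσ0.le]
          _ ≤ 1 + σ * (2 * Real.sqrt d) := by gcongr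
          _ = T := by
              rw [hT, hσ]
              field_simp
    refine (measure_mono hsub).trans ((measure_union_le _ _).trans (add_le_add ?_ ?_))
    · have h1 : MeasurableSet {z : ℝ | |⟪a, v⟫ + σ * ‖v‖ * z| ≤ T} :=
        measurableSet_le (by fun_prop) measurable_const
      rw [← Measure.map_apply (by fun_prop) h1, map_inner θ hθ1]
      exact shift_gq hw hX
    · exact norm_tail d 2 (by norm_num)

/-- **Smoothed facets and an arbitrary body.** -/
theorem smooth (ε : ℝ) (hε : 0 < ε) (s : ℝ) (hs : 0 < s) (C₀ : ℕ) : ∃ C d₀ : ℕ,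
    ∀ d : ℕ, d₀ ≤ d → ∀ N : ℕ, C * d ≤ N → ∀ a : Fin N → E d, (∀ i, ‖a i‖ ≤ 1) →
    ∀ σ : Fin N → ℝ, (∀ i, s ≤ σ i) → ∀ K₀ : Set (E d), Back (C₀ * d) K₀ →
    Law d N {g | ¬ Good ((1 + ε) ^ d) (K₀ ∩ Touch fun i => a i + (σ i / Real.sqrt d) • g i)} ≤
      ENNReal.ofReal (ε ^ d) := by
  obtain ⟨c, hc, hc1, hgen⟩ := gen ε hε C₀
  have hsc : 0 < Real.sqrt c := Real.sqrt_pos.2 hc
  set x : ℝ := (1 / s + 2) / Real.sqrt c with hx
  have hx0 : 0 < x := by positivity
  set u : ℝ := Real.exp (-(x ^ 2 + 1)) with hu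
  have hu0 : 0 < u := Real.exp_pos _
  have hu1 : u < 1 := by
    rw [hu, Real.exp_lt_one_iff]
    have : 0 < x ^ 2 := by positivity
    linarith
  obtain ⟨C, d₁, h⟩ := hgen (1 - 1/6 * u) (by linarith) (by linarith)
  have hlim := tendsto_pow_atTop_nhds_zero_of_lt_one (th_nonneg (t := 2) (by norm_num))
    (th_lt_one (t := 2) (by norm_num))
  obtain ⟨d₂, hd₂⟩ := eventually_atTop.1 (hlim.eventually (gt_mem_nhds (show 0 < 1/6 * u by positivity)))
  refine ⟨C, max (max d₁ d₂) 2, fun d hd N hN a ha σ hσ K₀ hK₀ => ?_⟩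
  have hd1 : d₁ ≤ d := (le_max_left _ _).trans ((le_max_left _ _).trans hd)
  have hd2 : d₂ ≤ d := (le_max_right _ _).trans ((le_max_left _ _).trans hd)
  have hd3 : 2 ≤ d := (le_max_right _ _).trans hd
  have hth2 := hd₂ d hd2
  have hq : gq {1} x + ENNReal.ofReal (th 2 ^ d) ≤ ENNReal.ofReal (1 - 1/6 * u) := by
    have h1 := gq_lt {1} (by simp) hx0.le
    have h2 : ENNReal.ofReal (th 2 ^ d) ≤ ENNReal.ofReal (1/6 * u) :=
      ENNReal.ofReal_le_ofReal (le_of_lt hth2)
    refine (add_le_add h1 h2).trans (le_of_eq ?_)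
    rw [← ENNReal.ofReal_add _ (by positivity)]
    · congr 1
      rw [← hu]
      ring
    · rw [← hu]
      linarith
  have h1 := h d hd1 N hN (fun i => (gm d).map (unit (a i) (σ i / Real.sqrt d)))
    (fun i => facet_unit hd3 (a i) (ha i) hs hc (hσ i) hq) K₀ hK₀
  refine le_trans ?_ h1
  have hpm : ∀ i, IsProbabilityMeasure ((gm d).map (unit (a i) (σ i / Real.sqrt d))) :=
    fun i => Measure.isProbabilityMeasure_map (unit_meas _ _).aemeasurable
  have h2 : Measure.pi (fun i => (gm d).map (unit (a i) (σ i / Real.sqrt d))) =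
      (Law d N).map (fun g i => unit (a i) (σ i / Real.sqrt d) (g i)) :=
    (Measure.pi_map_pi fun i => (unit_meas _ _).aemeasurable).symm
  rw [h2]
  refine le_trans ?_ (Measure.le_map_apply ?_ _)
  · apply measure_mono
    intro g hg hg'
    apply hg
    rw [← slabs_unit]
    exact hg'
  · exact (measurable_pi_iff.2 fun i => (unit_meas _ _).comp (measurable_pi_apply i)).aemeasurable

end Pool.Agent.J4H48.RQ
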